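import Pool.Agent.H7.LD.Stmts
import Pool.Agent.H52.HZ.NS2

/-!
# Board `ld16`, row NS2W: blocks with `s ≥ 2` (MP_fd41b2_co)

The proof of the board `hz` (Pool/Agent/H52/HZ/NS2.lean), whose lemmas are used.
-/

set_option autoImplicit false

open Finset

namespace Pool.LD7

open Pool.Agent.H23.KT Pool.Agent.H46.KW Pool.KQ Pool.GT7 Pool.GU7 Pool.HZ7 Pool.IA7

/-- The lower bound for `kx`, for `r ≤ p + 1`. -/
theorem ns2w_kx (hTTR : TTRStmt) (p r a : ℕ) (hr : r ≤ p + 1) (h1 : 1 ≤ a) :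
    ((p : ℝ) + 4) * (p + 3) * (p + 2) / 6 * a ^ 3 + (r : ℝ) * (p + 4) * (p + 2) / 2 * a ^ 2 -
      (((p : ℝ) + 3) * (r + 1) / 2 + (p + 2) / 2 + (r + 1) / 2) * a ≤ kx p r a := by
  have h := ns2_TT hTTR p a (r + 1) (by omega)
  have hr' : (((p + 4).choose 3 : ℕ) : ℝ) * (a : ℝ) ^ 3 +
      ((r : ℝ) + 1) * ((((p + 3).choose 2 : ℕ) : ℝ) * (a : ℝ) ^ 2) ≤ (TT (p + 4) 3 a (r + 1) : ℝ) := by
    exact_mod_cast h
  rw [(ns2_choose p).1, (ns2_choose p).2] at hr'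
  have hcast : (((p + 3 - r : ℕ)) : ℝ) = (p : ℝ) + 3 - r := by
    rw [Nat.cast_sub (by omega)]
    push_cast
    ring
  have ha : (1 : ℝ) ≤ a := by exact_mod_cast h1
  have hr0 : (0 : ℝ) ≤ r := Nat.cast_nonneg r
  have hp0 : (0 : ℝ) ≤ p := Nat.cast_nonneg p
  have hif : (if Even ((p + 3 - r) * a) then (0 : ℝ) else Xz p r a / 2 - 1) ≤
      ((p : ℝ) + 2) / 2 * a + ((r : ℝ) + 1) / 2 * a := by
    have h0 : (0 : ℝ) ≤ ((p : ℝ) + 2) / 2 * a + ((r : ℝ) + 1) / 2 * a := by positivity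
    have h2 : ((r : ℝ) + 1) / 2 ≤ ((r : ℝ) + 1) / 2 * a := by
      nlinarith
    split_ifs
    · exact h0
    · unfold Xz
      linarith
  unfold kx
  rw [hcast]
  have hX : Xz p r a = ((p : ℝ) + 2) * a + r + 1 := rfl
  have hlin : 1 / 2 * (((p : ℝ) + 3 - r) * a) * Xz p r a ≤
      1 / 2 * ((p : ℝ) + 3 - r) * ((p : ℝ) + 2) * a ^ 2 + ((p : ℝ) + 3) * (r + 1) / 2 * a := by
    rw [hX]
    have : 0 ≤ (r : ℝ) * (r + 1) / 2 * a := by positivity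
    nlinarith
  nlinarith

/-- Row NS2W. -/
theorem ns2w_thm (_hEST : ESTStmt) (hTTR : TTRStmt) : NS2WStmt := by
  intro p r hpr K
  have hrp := hpr.rp
  have hp0 : (0 : ℝ) ≤ p := Nat.cast_nonneg p
  have hr0 : (0 : ℝ) ≤ r := Nat.cast_nonneg r
  -- the inequality for fixed data
  have key : ∀ s S2 S3 : ℕ, ∃ a₀ : ℕ, ∀ a ≥ a₀, 2 ≤ s →
      ns2_P p r s S2 S3 a * ((((p + 3) * a + r + a + 1 : ℕ)) : ℝ) ≤
        kx p r a * ((((p + 3) * a + r + a + s : ℕ)) : ℝ) := by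
    intro s S2 S3
    obtain ⟨A, hA⟩ : ∃ A : ℝ, A = ((p : ℝ) + 4) * (p + 3) * (p + 2) / 6 := ⟨_, rfl⟩
    obtain ⟨B, hB⟩ : ∃ B : ℝ, B = (r : ℝ) * (p + 4) * (p + 2) / 2 := ⟨_, rfl⟩
    obtain ⟨M, hM⟩ : ∃ M : ℝ, M = ns2_P p r s S2 S3 0 := ⟨_, rfl⟩
    obtain ⟨L, hL⟩ : ∃ L : ℝ, L = ns2_P p r s S2 S3 1 - M - A - B := ⟨_, rfl⟩
    obtain ⟨C, hC⟩ : ∃ C : ℝ, C = ((p : ℝ) + 3) * (r + 1) / 2 + (p + 2) / 2 + (r + 1) / 2 :=
      ⟨_, rfl⟩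
    obtain ⟨a₀, ha₀⟩ := exists_nat_ge ((C + |L| + |M|) * ((p : ℝ) + 4 + r + s + 1))
    refine ⟨a₀ + 1, fun a ha hs => ?_⟩
    have ha1 : 1 ≤ a := by omega
    have haT := ha₀.trans (show ((a₀ : ℕ) : ℝ) ≤ (a : ℝ) by exact_mod_cast (by omega : a₀ ≤ a))
    have har : (1 : ℝ) ≤ a := by exact_mod_cast ha1
    have hs0 : (2 : ℝ) ≤ s := by exact_mod_cast hs
    have hA1 : 1 ≤ A := by
      rw [hA]
      have h1 : (3 : ℝ) ≤ ((p : ℝ) + 4) := by linarith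
      have h2 : (2 : ℝ) ≤ ((p : ℝ) + 3) := by linarith
      have h3 : (1 : ℝ) ≤ ((p : ℝ) + 2) := by linarith
      have : (3 : ℝ) * 2 * 1 ≤ ((p : ℝ) + 4) * (p + 3) * (p + 2) := by gcongr
      linarith
    have hB0 : 0 ≤ B := by rw [hB]; positivity
    have hC0 : 0 ≤ C := by rw [hC]; positivity
    have hk := ns2w_kx hTTR p r a hrp ha1
    have hp := ns2_poly p r s S2 S3 a
    rw [← hA, ← hB, ← hC] at hk
    rw [← hA, ← hB, ← hM, ← hL] at hp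
    have h := ns2_fin A B C L M p r s a _ _ hA1 hB0 hC0 hp0 hr0 hs0 har haT hp hk
    have eN1 : ((((p + 3) * a + r + a + 1 : ℕ)) : ℝ) = ((p : ℝ) + 4) * a + r + 1 := by
      push_cast
      ring
    have eN2 : ((((p + 3) * a + r + a + s : ℕ)) : ℝ) = ((p : ℝ) + 4) * a + r + s := by
      push_cast
      ring
    rw [eN1, eN2]
    exact h
  choose f hf using key
  set I := (Finset.range (K + 1)) ×ˢ (Finset.range ((p + 4) * K ^ 2 + 1)) ×ˢ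
    (Finset.range ((p + 4) * K ^ 3 + 1)) with hI
  refine ⟨I.sup (fun x => f x.1 x.2.1 x.2.2), fun a ha s hs2 hsK n σ hn hσ hsum => ?_⟩
  rw [ns2_Psi p r a s n σ hn hsum]
  have b2 : ∑ j, σ j ^ 2 ≤ (p + 4) * K ^ 2 := by
    calc ∑ j, σ j ^ 2 ≤ ∑ _j : Fin (p + 4), K ^ 2 :=
          Finset.sum_le_sum fun j _ => Nat.pow_le_pow_left (hσ j) 2
      _ = (p + 4) * K ^ 2 := by simp
  have b3 : ∑ j, σ j ^ 3 ≤ (p + 4) * K ^ 3 := by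
    calc ∑ j, σ j ^ 3 ≤ ∑ _j : Fin (p + 4), K ^ 3 :=
          Finset.sum_le_sum fun j _ => Nat.pow_le_pow_left (hσ j) 3
      _ = (p + 4) * K ^ 3 := by simp
  have hmem : (s, ∑ j, σ j ^ 2, ∑ j, σ j ^ 3) ∈ I := by
    rw [hI]
    simp only [Finset.mem_product, Finset.mem_range]
    exact ⟨by omega, by omega, by omega⟩
  have hle : f s (∑ j, σ j ^ 2) (∑ j, σ j ^ 3) ≤ a :=
    (Finset.le_sup (f := fun x => f x.1 x.2.1 x.2.2) hmem).trans ha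
  exact hf s _ _ a hle hs2

end Pool.LD7
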